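import Pool.Agent.Helper61.P3.St1

/-!
# Project P3 (MP_cb927e_an): module GJ, concavity of `x/(1+x)` and averages
-/

set_option autoImplicit false

open MeasureTheory Set Filter Topology
open scoped ENNReal RealInnerProductSpace

namespace Pool.Agent.Helper79.P3

open Pool.Agent.Helper61.P3
open Pool.Agent.Helper20.RG
open Pool.Agent.Helper20.EQ
open Pool.Agent.Helper68.LM (Pl BB Bd Av HL ft fm DQ)
open Pool.Agent.Helper68.EP (elt GapP)

lemma tc_sub {x y : ℝ} (hx : 0 ≤ x) (hy : 0 ≤ y) :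
    Tc x - Tc y = (x - y) / ((1 + x) * (1 + y)) := by
  unfold Tc
  have h1 : (1 + x) ≠ 0 := by positivity
  have h2 : (1 + y) ≠ 0 := by positivity
  field_simp
  ring

lemma tc_nonneg {x : ℝ} (hx : 0 ≤ x) : 0 ≤ Tc x := by unfold Tc; positivity

lemma tc_le_self {x : ℝ} (hx : 0 ≤ x) : Tc x ≤ x := by
  unfold Tc
  exact div_le_self hx (by linarith)

lemma tc_le_one {x : ℝ} (hx : 0 ≤ x) : Tc x ≤ 1 := by
  unfold Tc
  rw [div_le_one (by linarith)]
  linarith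

lemma tc_identity {x y : ℝ} (hx : 0 ≤ x) (hy : 0 ≤ y) :
    Tc y + (x - y) / (1 + y) ^ 2 - Tc x = (x - y) ^ 2 / ((1 + y) ^ 2 * (1 + x)) := by
  unfold Tc
  have h1 : (1 + x) ≠ 0 := by positivity
  have h2 : (1 + y) ≠ 0 := by positivity
  field_simp
  ring

lemma tc_sq {x y : ℝ} (hx : 0 ≤ x) (hy : 0 ≤ y) :
    (Tc x - Tc y) ^ 2 ≤ Tc y + (x - y) / (1 + y) ^ 2 - Tc x := by
  rw [tc_identity hx hy, tc_sub hx hy, div_pow]
  apply div_le_div_of_nonneg_left (sq_nonneg _) (by positivity)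
  have h1 : 1 + x ≤ (1 + x) ^ 2 := by nlinarith
  calc (1 + y) ^ 2 * (1 + x) ≤ (1 + y) ^ 2 * (1 + x) ^ 2 :=
        mul_le_mul_of_nonneg_left h1 (by positivity)
    _ = ((1 + x) * (1 + y)) ^ 2 := by ring

lemma gj_one (x y : ℝ) (hx : 0 ≤ x) (hy : 0 ≤ y) :
    0 ≤ Tc x ∧ Tc x ≤ x ∧ Tc x ≤ 1 ∧ |Tc x - Tc y| ≤ |x - y| ∧ (x ≤ y → Tc x ≤ Tc y) ∧
    Tc x - (x - y) / (1 + y) ^ 2 ≤ Tc y ∧
    Tc y + (x - y) / (1 + y) ^ 2 - Tc x = (x - y) ^ 2 / ((1 + y) ^ 2 * (1 + x)) ∧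
    (x ≤ 1 → y ≤ 1 → |x - y| ≤ 4 * |Tc x - Tc y|) := by
  have hp : 0 < (1 + x) * (1 + y) := by positivity
  have h1 : 1 ≤ (1 + x) * (1 + y) := by nlinarith [mul_nonneg hx hy]
  refine ⟨tc_nonneg hx, tc_le_self hx, tc_le_one hx, ?_, ?_, ?_, tc_identity hx hy, ?_⟩
  · rw [tc_sub hx hy, abs_div, abs_of_pos hp]
    exact div_le_self (abs_nonneg _) h1
  · intro hxy
    have h2 : Tc x - Tc y ≤ 0 := by
      rw [tc_sub hx hy]
      exact div_nonpos_of_nonpos_of_nonneg (by linarith) hp.le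
    linarith
  · have h2 := tc_identity hx hy
    have h3 : 0 ≤ (x - y) ^ 2 / ((1 + y) ^ 2 * (1 + x)) := by positivity
    linarith
  · intro hx1 hy1
    rw [tc_sub hx hy, abs_div, abs_of_pos hp, mul_div_assoc', le_div_iff₀ hp]
    have h2 : (1 + x) * (1 + y) ≤ 4 := by nlinarith
    have := mul_le_mul_of_nonneg_left h2 (abs_nonneg (x - y))
    linarith

/-! ### Averages -/

variable {κ : ℤ → ℝ} {a : ℤ} {t : ℝ}

lemma int_Ia {g : ℝ → ℝ} (hg : Measurable g) {C : ℝ} (hC : ∀ r, |g r| ≤ C) :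
    IntegrableOn g (Ia κ a t) := by
  have hfin : IsFiniteMeasure (volume.restrict (Ia κ a t)) := by
    constructor
    unfold Ia
    simp
  exact Integrable.mono' (integrable_const C) hg.aestronglyMeasurable
    (by filter_upwards with r; exact hC r)

lemma ed_const (c : ℝ) : Ed κ a (fun _ => c) t = c := by
  unfold Ed Ia
  rw [setIntegral_const]
  have h1 : (0 : ℝ) < 2 ^ a := by positivity
  simp only [measureReal_def, Real.volume_Ico, add_sub_cancel_left, smul_eq_mul,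
    ENNReal.toReal_ofReal h1.le]
  rw [← mul_assoc, ← zpow_add₀ two_ne_zero, neg_add_cancel, zpow_zero, one_mul]

lemma ed_mono {g g' : ℝ → ℝ} (hg : Measurable g) {C : ℝ} (hC : ∀ r, |g r| ≤ C)
    (hg' : Measurable g') {C' : ℝ} (hC' : ∀ r, |g' r| ≤ C') (h : ∀ r, g r ≤ g' r) :
    Ed κ a g t ≤ Ed κ a g' t := by
  unfold Ed
  exact mul_le_mul_of_nonneg_left (integral_mono (int_Ia hg hC) (int_Ia hg' hC') h) (by positivity)

/-- `Ed (c + x g - g')` -/
lemma ed_comb {g g' : ℝ → ℝ} (hg : Measurable g) {C : ℝ} (hC : ∀ r, |g r| ≤ C)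
    (hg' : Measurable g') {C' : ℝ} (hC' : ∀ r, |g' r| ≤ C') (c x : ℝ) :
    Ed κ a (fun r => c + x * g r - g' r) t = c + x * Ed κ a g t - Ed κ a g' t := by
  have hi := int_Ia (κ := κ) (a := a) (t := t) hg hC
  have hi' := int_Ia (κ := κ) (a := a) (t := t) hg' hC'
  have hc : IntegrableOn (fun _ : ℝ => c) (Ia κ a t) :=
    int_Ia measurable_const (C := |c|) (fun _ => le_rfl)
  have h1 := ed_const (κ := κ) (a := a) (t := t) c
  have e1 : ∫ r in Ia κ a t, (c + x * g r - g' r) =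
      (∫ _r in Ia κ a t, c) + x * (∫ r in Ia κ a t, g r) - ∫ r in Ia κ a t, g' r := by
    have hs : IntegrableOn (fun r => c + x * g r) (Ia κ a t) := hc.add (hi.const_mul x)
    rw [integral_sub hs hi', integral_add hc (hi.const_mul x), integral_const_mul]
  show (2 : ℝ) ^ (-a) * ∫ r in Ia κ a t, (c + x * g r - g' r) = _
  rw [e1]
  have h2 : (2 : ℝ) ^ (-a) * (∫ _r in Ia κ a t, c) = c := h1
  unfold Ed
  linear_combination h2

/-- **GJ** -/
theorem hGJ (_hGR : Pool.Agent.Helper61.P3.StGR) (_hGA : Pool.Agent.Helper61.P3.StGA) :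
    Pool.Agent.Helper61.P3.StGJ := by
  refine ⟨gj_one, fun κ _ β M a hβ hM t => ?_⟩
  set μ : ℝ := Ed κ a β t with hμ
  have hβa : ∀ r, |β r| ≤ M := fun r => by
    rw [abs_of_nonneg (hM r).1]; exact (hM r).2
  have hμ0 : 0 ≤ μ := by
    have h1 := ed_mono (κ := κ) (a := a) (t := t) (g := fun _ => (0 : ℝ)) measurable_const
      (C := 0) (fun _ => by simp) hβ hβa (fun r => (hM r).1)
    rwa [ed_const] at h1
  have hTm : Measurable fun r => Tc (β r) := by unfold Tc; fun_prop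
  have hTa : ∀ r, |Tc (β r)| ≤ 1 := fun r => by
    rw [abs_of_nonneg (tc_nonneg (hM r).1)]; exact tc_le_one (hM r).1
  have hT1 : 0 ≤ Tc μ ∧ Tc μ ≤ 1 := ⟨tc_nonneg hμ0, tc_le_one hμ0⟩
  have hS : ∀ r, |(Tc (β r) - Tc μ) ^ 2| ≤ 1 := fun r => by
    have h1 := tc_nonneg (hM r).1
    have h2 := tc_le_one (hM r).1
    rw [abs_of_nonneg (sq_nonneg _), sq_le_one_iff_abs_le_one, abs_le]
    constructor <;> linarith [hT1.1, hT1.2]
  have hSm : Measurable fun r => (Tc (β r) - Tc μ) ^ 2 := by fun_prop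
  -- the right side
  have hRm : Measurable fun r => (Tc μ - μ / (1 + μ) ^ 2) + (1 / (1 + μ) ^ 2) * β r - Tc (β r) := by
    fun_prop
  have hRa : ∀ r, |(Tc μ - μ / (1 + μ) ^ 2) + (1 / (1 + μ) ^ 2) * β r - Tc (β r)| ≤
      |Tc μ - μ / (1 + μ) ^ 2| + |1 / (1 + μ) ^ 2| * M + 1 := fun r => by
    have h1 := abs_sub ((Tc μ - μ / (1 + μ) ^ 2) + (1 / (1 + μ) ^ 2) * β r) (Tc (β r))
    have h2 := abs_add_le (Tc μ - μ / (1 + μ) ^ 2) ((1 / (1 + μ) ^ 2) * β r)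
    rw [abs_mul] at h2
    have h3 := mul_le_mul_of_nonneg_left (hβa r) (abs_nonneg (1 / (1 + μ) ^ 2))
    linarith [hTa r]
  have hle : ∀ r, (Tc (β r) - Tc μ) ^ 2 ≤
      (Tc μ - μ / (1 + μ) ^ 2) + (1 / (1 + μ) ^ 2) * β r - Tc (β r) := fun r => by
    refine (tc_sq (hM r).1 hμ0).trans (le_of_eq ?_)
    ring
  have h2 : Ed κ a (fun r => (Tc (β r) - Tc μ) ^ 2) t ≤ Tc μ - Ed κ a (fun r => Tc (β r)) t := by
    refine (ed_mono hSm hS hRm hRa hle).trans (le_of_eq ?_)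
    rw [ed_comb hβ hβa hTm hTa, ← hμ]
    ring
  refine ⟨?_, h2⟩
  have h3 := ed_mono (κ := κ) (a := a) (t := t) (g := fun _ => (0 : ℝ)) measurable_const
    (C := 0) (fun _ => by simp) hSm hS (fun r => sq_nonneg _)
  rw [ed_const] at h3
  linarith

end Pool.Agent.Helper79.P3
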